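import Pool.Agent.W845.GL.Stm

namespace Pool.Agent.W490.GL.T2

open Finset Pool.Agent.W845.GL

theorem prod_near {ι : Type} (f : ι → ℝ) {b : ℝ} (hb : 0 ≤ b) (s : Finset ι)
    (h1 : ∀ i ∈ s, |f i - 1| ≤ 3 * b) (h2 : ∀ i ∈ s, |f i| ≤ 2) :
    |∏ i ∈ s, f i - 1| ≤ 3 * b * (s.card * 2 ^ s.card) := by
  classical
  induction s using Finset.induction_on with
  | empty => simp
  | insert a s ha ih =>
    rw [Finset.prod_insert ha, Finset.card_insert_of_notMem ha]
    have ih' := ih (fun i hi => h1 i (Finset.mem_insert_of_mem hi))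
      (fun i hi => h2 i (Finset.mem_insert_of_mem hi))
    have ha1 := h1 a (Finset.mem_insert_self _ _)
    have ha2 := h2 a (Finset.mem_insert_self _ _)
    have e : f a * ∏ i ∈ s, f i - 1 = f a * (∏ i ∈ s, f i - 1) + (f a - 1) := by ring
    rw [e]
    have h3 : |f a * (∏ i ∈ s, f i - 1)| ≤ 2 * (3 * b * (s.card * 2 ^ s.card)) := by
      rw [abs_mul]
      gcongr
    have h4 : (1 : ℝ) ≤ 2 ^ (s.card + 1) := one_le_pow₀ (by norm_num)
    refine (abs_add_le _ _).trans ?_
    push_cast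
    have h5 : 3 * b * 1 ≤ 3 * b * 2 ^ (s.card + 1) := by gcongr
    calc |f a * (∏ i ∈ s, f i - 1)| + |f a - 1|
        ≤ 2 * (3 * b * (s.card * 2 ^ s.card)) + 3 * b * 2 ^ (s.card + 1) := by linarith
      _ = 3 * b * ((s.card + 1) * 2 ^ (s.card + 1)) := by ring

/-- the product of the signs of an edge -/
noncomputable def PP {k : ℕ} (x : Fin k → Bool) (e : Fin k × Fin k) : ℝ :=
  sg (x e.1) * sg (x e.2)

theorem sg_abs (r : Bool) : |sg r| = 1 := by
  cases r <;> simp [sg]

theorem sg_not (r : Bool) : sg (!r) = - sg r := by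
  cases r <;> simp [sg]

theorem PP_abs {k : ℕ} (x : Fin k → Bool) (e : Fin k × Fin k) : |PP x e| = 1 := by
  unfold PP
  rw [abs_mul, sg_abs, sg_abs, one_mul]

theorem sum_zero {k : ℕ} (H : Finset (Fin k × Fin k)) (u : Fin k) {e0 : Fin k × Fin k}
    (he0 : e0 ∈ H) (hu : u = e0.1 ∨ u = e0.2) (hne : e0.1 ≠ e0.2)
    (hoth : ∀ e ∈ H, e ≠ e0 → u ≠ e.1 ∧ u ≠ e.2) :
    ∑ x : Fin k → Bool, ∏ e ∈ H, PP x e = 0 := by
  have flip : ∀ x : Fin k → Bool, ∏ e ∈ H, PP (Function.update x u (!x u)) e =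
      - ∏ e ∈ H, PP x e := by
    intro x
    rw [← Finset.mul_prod_erase H _ he0, ← Finset.mul_prod_erase H (PP x) he0]
    have h1 : PP (Function.update x u (!x u)) e0 = - PP x e0 := by
      unfold PP
      rcases hu with rfl | rfl
      · rw [Function.update_self, Function.update_of_ne hne.symm, sg_not]
        ring
      · rw [Function.update_self, Function.update_of_ne hne, sg_not]
        ring
    have h2 : ∏ e ∈ H.erase e0, PP (Function.update x u (!x u)) e =
        ∏ e ∈ H.erase e0, PP x e := by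
      refine Finset.prod_congr rfl fun e he => ?_
      obtain ⟨h3, h4⟩ := hoth e (Finset.mem_of_mem_erase he) (Finset.ne_of_mem_erase he)
      unfold PP
      rw [Function.update_of_ne h3.symm, Function.update_of_ne h4.symm]
    rw [h1, h2]
    ring
  have inv : Function.Involutive (fun x : Fin k → Bool => Function.update x u (!x u)) := by
    intro x
    simp
  have key := Equiv.sum_comp (Function.Involutive.toPerm _ inv)
    (fun x : Fin k → Bool => ∏ e ∈ H, PP x e)
  have key2 : ∑ x : Fin k → Bool, ∏ e ∈ H, PP (Function.Involutive.toPerm _ inv x) e =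
      - ∑ x : Fin k → Bool, ∏ e ∈ H, PP x e := by
    rw [← Finset.sum_neg_distrib]
    exact Finset.sum_congr rfl fun x _ => flip x
  linarith

theorem sum_small {k : ℕ} (H : Finset (Fin k × Fin k)) (hH : ∀ e ∈ H, e.1 < e.2)
    (h1 : H.card = 1 ∨ H.card = 2) : ∑ x : Fin k → Bool, ∏ e ∈ H, PP x e = 0 := by
  rcases h1 with h1 | h1
  · obtain ⟨e, rfl⟩ := Finset.card_eq_one.mp h1
    have he := hH e (Finset.mem_singleton_self e)
    refine sum_zero _ e.1 (Finset.mem_singleton_self e) (Or.inl rfl) he.ne ?_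
    intro f hf hne
    exact absurd (Finset.mem_singleton.mp hf) hne
  · obtain ⟨e, f, hef, rfl⟩ := Finset.card_eq_two.mp h1
    have he := hH e (by simp)
    have hf := hH f (by simp)
    by_cases c1 : e.1 = f.1 ∨ e.1 = f.2
    · by_cases c2 : e.2 = f.1 ∨ e.2 = f.2
      · exfalso
        apply hef
        rcases c1 with c1 | c1
        · rcases c2 with c2 | c2
          · rw [c1, c2] at he
            exact absurd he (lt_irrefl _)
          · exact Prod.ext c1 c2
        · rcases c2 with c2 | c2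
          · rw [c1, c2] at he
            exact absurd (he.trans hf) (lt_irrefl _)
          · rw [c1, c2] at he
            exact absurd he (lt_irrefl _)
      · push Not at c2
        refine sum_zero _ e.2 (e0 := e) (by simp) (Or.inr rfl) he.ne ?_
        intro g hg hne
        have h3 : g = f := by
          rcases Finset.mem_insert.mp hg with h | h
          · exact absurd h hne
          · exact Finset.mem_singleton.mp h
        rw [h3]
        exact c2
    · push Not at c1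
      refine sum_zero _ e.1 (e0 := e) (by simp) (Or.inl rfl) he.ne ?_
      intro g hg hne
      have h3 : g = f := by
        rcases Finset.mem_insert.mp hg with h | h
        · exact absurd h hne
        · exact Finset.mem_singleton.mp h
      rw [h3]
      exact c1

theorem sumB {k : ℕ} (E : Finset (Fin k × Fin k)) (hE : ∀ e ∈ E, e.1 < e.2) {a : ℝ}
    (ha0 : 0 ≤ a) (ha1 : a ≤ 1) :
    |∑ x : Fin k → Bool, ∏ e ∈ E, (1 + a * PP x e) - 2 ^ k| ≤ 2 ^ k * (2 ^ E.card * a ^ 3) := by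
  have e1 : ∑ x : Fin k → Bool, ∏ e ∈ E, (1 + a * PP x e) =
      ∑ H ∈ E.powerset, a ^ H.card * ∑ x : Fin k → Bool, ∏ e ∈ H, PP x e := by
    simp only [Finset.prod_one_add, Finset.prod_mul_distrib, Finset.prod_const]
    rw [Finset.sum_comm]
    exact Finset.sum_congr rfl fun H _ => (Finset.mul_sum _ _ _).symm
  have c2 : (Fintype.card (Fin k → Bool) : ℝ) = 2 ^ k := by
    simp
  have e2 : (2 : ℝ) ^ k = a ^ (∅ : Finset (Fin k × Fin k)).card *
      ∑ x : Fin k → Bool, ∏ e ∈ (∅ : Finset (Fin k × Fin k)), PP x e := by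
    simp
  rw [e1, ← Finset.add_sum_erase _ _ (Finset.empty_mem_powerset E)]
  conv_lhs => rw [← e2, add_sub_cancel_left]
  refine (Finset.abs_sum_le_sum_abs _ _).trans ?_
  have bnd : ∀ H ∈ E.powerset.erase ∅,
      |a ^ H.card * ∑ x : Fin k → Bool, ∏ e ∈ H, PP x e| ≤ 2 ^ k * a ^ 3 := by
    intro H hH
    have hHE : H ⊆ E := Finset.mem_powerset.mp (Finset.mem_of_mem_erase hH)
    have hne : H ≠ ∅ := Finset.ne_of_mem_erase hH
    have hpos : 0 < H.card := Finset.card_pos.mpr (Finset.nonempty_iff_ne_empty.mpr hne)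
    by_cases h2 : H.card ≤ 2
    · rw [sum_small H (fun e he => hE e (hHE he)) (by omega), mul_zero, abs_zero]
      positivity
    · rw [abs_mul, abs_of_nonneg (by positivity)]
      have h3 : |∑ x : Fin k → Bool, ∏ e ∈ H, PP x e| ≤ 2 ^ k := by
        refine (Finset.abs_sum_le_sum_abs _ _).trans ?_
        rw [← c2]
        refine (Finset.sum_le_card_nsmul _ _ 1 ?_).trans (by simp)
        intro x _
        rw [Finset.abs_prod]
        simp only [PP_abs, Finset.prod_const_one, le_refl]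
      have h4 : a ^ H.card ≤ a ^ 3 := pow_le_pow_of_le_one ha0 ha1 (by omega)
      calc a ^ H.card * |∑ x : Fin k → Bool, ∏ e ∈ H, PP x e| ≤ a ^ 3 * 2 ^ k := by gcongr
        _ = 2 ^ k * a ^ 3 := by ring
  refine (Finset.sum_le_card_nsmul _ _ _ bnd).trans ?_
  rw [nsmul_eq_mul]
  have h5 : ((E.powerset.erase ∅).card : ℝ) ≤ 2 ^ E.card := by
    have h6 : (E.powerset.erase ∅).card ≤ 2 ^ E.card := by
      rw [← Finset.card_powerset]
      exact Finset.card_le_card (Finset.erase_subset _ _)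
    exact_mod_cast h6
  calc ((E.powerset.erase ∅).card : ℝ) * (2 ^ k * a ^ 3) ≤ 2 ^ E.card * (2 ^ k * a ^ 3) := by
        gcongr
    _ = 2 ^ k * (2 ^ E.card * a ^ 3) := by ring

theorem t2 : S_T0 → S_T2 := by
  intro h0 k F
  obtain ⟨ha, hb, _⟩ := h0
  refine ⟨3 * ((Eg F).card * 2 ^ (Eg F).card) * 2 ^ (Eg F).card + 2 ^ (Eg F).card, fun j => ?_⟩
  obtain ⟨ha0, ha1⟩ := ha j
  obtain ⟨hb0, hb1⟩ := hb j
  have hE : ∀ e ∈ Eg F, e.1 < e.2 := by
    intro e he
    simp only [Eg, Finset.mem_filter] at he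
    exact he.2.1
  set a := aa j with hadef
  set b := bb j with hbdef
  set n := (Eg F).card with hn
  have hB := sumB (Eg F) hE ha0.le ha1
  -- values
  have fe : ∀ (x : Fin k → Bool), ∏ e ∈ Eg F, ff j (x e.1) (x e.2) =
      (∏ e ∈ Eg F, ((1 + b * sg (x e.1)) * (1 + b * sg (x e.2)))) *
        ∏ e ∈ Eg F, (1 + a * PP x e) := by
    intro x
    rw [← Finset.prod_mul_distrib]
    refine Finset.prod_congr rfl fun e _ => ?_
    unfold ff PP
    rw [← hadef, ← hbdef]
    ring
  have hA : ∀ x : Fin k → Bool, |(∏ e ∈ Eg F, ((1 + b * sg (x e.1)) * (1 + b * sg (x e.2)))) - 1| ≤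
      3 * b * (n * 2 ^ n) := by
    intro x
    apply prod_near _ hb0.le
    · intro e _
      have e1 : (1 + b * sg (x e.1)) * (1 + b * sg (x e.2)) - 1 =
          b * (sg (x e.1) + sg (x e.2) + b * (sg (x e.1) * sg (x e.2))) := by ring
      rw [e1, abs_mul, abs_of_pos hb0, mul_comm 3 b]
      gcongr
      refine (abs_add_le _ _).trans ?_
      have h1 := abs_add_le (sg (x e.1)) (sg (x e.2))
      rw [sg_abs, sg_abs] at h1
      rw [abs_mul, abs_mul, sg_abs, sg_abs, abs_of_pos hb0]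
      linarith
    · intro e _
      rw [abs_mul]
      have h1 : ∀ r, |1 + b * sg r| ≤ 5 / 4 := by
        intro r
        refine (abs_add_le _ _).trans ?_
        rw [abs_mul, sg_abs, abs_one, abs_of_pos hb0]
        linarith
      nlinarith [h1 (x e.1), h1 (x e.2), abs_nonneg (1 + b * sg (x e.1)),
        abs_nonneg (1 + b * sg (x e.2))]
  have hB1 : ∀ x : Fin k → Bool, |∏ e ∈ Eg F, (1 + a * PP x e)| ≤ 2 ^ n := by
    intro x
    rw [Finset.abs_prod, hn, ← Finset.prod_const]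
    refine Finset.prod_le_prod (fun _ _ => abs_nonneg _) fun e _ => ?_
    refine (abs_add_le _ _).trans ?_
    rw [abs_mul, PP_abs, abs_one, abs_of_pos ha0]
    linarith
  have c2 : (Fintype.card (Fin k → Bool) : ℝ) = 2 ^ k := by
    simp
  have hAB : |∑ x : Fin k → Bool, ∏ e ∈ Eg F, ff j (x e.1) (x e.2) -
      ∑ x : Fin k → Bool, ∏ e ∈ Eg F, (1 + a * PP x e)| ≤
      2 ^ k * (3 * b * (n * 2 ^ n) * 2 ^ n) := by
    rw [← Finset.sum_sub_distrib]
    refine (Finset.abs_sum_le_sum_abs _ _).trans ?_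
    refine (Finset.sum_le_card_nsmul _ _ (3 * b * (n * 2 ^ n) * 2 ^ n) ?_).trans ?_
    · intro x _
      rw [fe x, ← sub_one_mul, abs_mul]
      exact mul_le_mul (hA x) (hB1 x) (abs_nonneg _) (by positivity)
    · rw [nsmul_eq_mul, Finset.card_univ, c2]
  have hT : tW (ff j) F = (∑ x : Fin k → Bool, ∏ e ∈ Eg F, ff j (x e.1) (x e.2)) / 2 ^ k := by
    unfold tW
    rw [Fintype.card_bool]
    norm_num
  rw [hT]
  set S1 := ∑ x : Fin k → Bool, ∏ e ∈ Eg F, ff j (x e.1) (x e.2)
  set S2 := ∑ x : Fin k → Bool, ∏ e ∈ Eg F, (1 + a * PP x e)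
  have hk : (0 : ℝ) < 2 ^ k := by positivity
  have h7 : |S1 - 2 ^ k| ≤ 2 ^ k * (3 * b * (n * 2 ^ n) * 2 ^ n + 2 ^ n * a ^ 3) := by
    calc |S1 - 2 ^ k| = |(S1 - S2) + (S2 - 2 ^ k)| := by ring_nf
      _ ≤ |S1 - S2| + |S2 - 2 ^ k| := abs_add_le _ _
      _ ≤ 2 ^ k * (3 * b * (n * 2 ^ n) * 2 ^ n) + 2 ^ k * (2 ^ n * a ^ 3) := add_le_add hAB hB
      _ = _ := by ring
  have h8 : |S1 / 2 ^ k - 1| ≤ 3 * b * (n * 2 ^ n) * 2 ^ n + 2 ^ n * a ^ 3 := by
    have e3 : S1 / 2 ^ k - 1 = (S1 - 2 ^ k) / 2 ^ k := by field_simp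
    rw [e3, abs_div, abs_of_pos hk, div_le_iff₀ hk]
    linarith
  refine h8.trans ?_
  have h9 : 0 ≤ 3 * ((n : ℝ) * 2 ^ n) * 2 ^ n * a ^ 3 := by positivity
  have h10 : 0 ≤ (2 : ℝ) ^ n * b := by positivity
  linarith

end Pool.Agent.W490.GL.T2
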